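import Pool.Agent.Y62.GA.Wrap

/-!
# The Alperin–McKay–Navarro conjecture for a family of principal 3-blocks

`O` is a valuation subring of `ℂ` whose maximal ideal `O.nonunits` contains `3`; it plays the role
of a `3`-modular system.
-/

namespace Pool.Agent.Results.MP_7f1e7e_al.PrincipalThreeBlocks

open Pool.Agent.H254R3.IN

/-- The principal block of `G`: the irreducible characters whose central character is congruent to
the one of the trivial character. -/
def PrincipalBlock (O : ValuationSubring ℂ) (G : Type) [Group G] : Set (G → ℂ) :=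
  {χ | IsIrr χ ∧ ∀ x : G, omega χ x - omega (fun _ => (1 : ℂ)) x ∈ O.nonunits}

/-- The characters of height zero in the `3`-block `B` of `G` with defect group `D`: the `χ ∈ B`
with `χ(1)_3 = |G : D|_3`. -/
def Irr0 {G : Type} [Group G] (D : Subgroup G) (B : Set (G → ℂ)) : Set (G → ℂ) :=
  {χ | χ ∈ B ∧ ∃ n : ℕ, (n : ℂ) = χ 1 ∧ n.factorization 3 = D.index.factorization 3}

/-- Let `G` be a finite group of order `3 ^ b * m` with `3 ∤ m`, `N ≠ G` a normal subgroup whose
order is divisible by `3`, `P` a Sylow `3`-subgroup of `G` and `y ∈ P` with `G = N⟨y⟩`. Suppose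
that `9` does not divide `|C_N(x)|` for every `3`-element `x` of the coset `yN`. Then the principal
block `B_0(G)` has defect group `P` and Brauer correspondent `B_0(N_G(P))`, and there is a bijection
`Irr_0(B_0(G)) → Irr_0(B_0(N_G(P)))` which commutes with the action of every `σ` in the group `𝓗`,
i.e. every `σ` with `σ(ξ) = ξ ^ (3 ^ e)` for some `e ≥ 0` and all `m`-th roots of unity `ξ`. -/
theorem result (G : Type) [Group G] [Finite G]
    (O : ValuationSubring ℂ) (hO : ((3 : ℕ) : ℂ) ∈ O.nonunits)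
    (b m : ℕ) (hm : ¬ 3 ∣ m) (hG : Nat.card G = 3 ^ b * m)
    (N : Subgroup G) (hN : N.Normal) (hNt : N ≠ ⊤) (h3 : 3 ∣ Nat.card N)
    (P : Sylow 3 G) (y : G) (hy : y ∈ P) (hgen : N ⊔ Subgroup.zpowers y = ⊤)
    (h9 : ∀ x : G, (∃ k : ℕ, orderOf x = 3 ^ k) → y⁻¹ * x ∈ N →
      ¬ 9 ∣ Nat.card (Subgroup.centralizer ({x} : Set G) ⊓ N : Subgroup G)) :
    IsBlock O (PrincipalBlock O G) ∧
    IsDefectGroup 3 O (PrincipalBlock O G) (P : Subgroup G) ∧
    IsBrauerCorrespondent 3 O (P : Subgroup G) (PrincipalBlock O G)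
      (PrincipalBlock O (Subgroup.normalizer ((P : Subgroup G) : Set G))) ∧
    ∃ f : Irr0 (P : Subgroup G) (PrincipalBlock O G) ≃
        Irr0 ((P : Subgroup G).subgroupOf (Subgroup.normalizer ((P : Subgroup G) : Set G)))
          (PrincipalBlock O (Subgroup.normalizer ((P : Subgroup G) : Set G))),
      ∀ σ : ℂ ≃+* ℂ, (∃ e : ℕ, ∀ ξ : ℂ, ξ ^ m = 1 → σ ξ = ξ ^ 3 ^ e) →
        ∀ χ : Irr0 (P : Subgroup G) (PrincipalBlock O G),
          ∃ h : (fun g => σ ((χ : G → ℂ) g)) ∈ Irr0 (P : Subgroup G) (PrincipalBlock O G),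
            (f ⟨fun g => σ ((χ : G → ℂ) g), h⟩ :
              Subgroup.normalizer ((P : Subgroup G) : Set G) → ℂ) = fun g => σ ((f χ : _ → ℂ) g) := by
  have := Fintype.ofFinite G
  have hF : Fact (Nat.Prime 3) := ⟨Nat.prime_three⟩
  refine ⟨⟨fun _ => 1, Pool.Agent.Y62.GA.irr_one G, rfl⟩, Pool.Agent.Y508.GA.S_DEF G O hO P,
    Pool.Agent.Y508.GA.S_BRC G O hO P, ?_⟩
  obtain ⟨f, hf⟩ := Pool.Agent.Y62.GA.equivariant ⟨hO, hN, hNt, hgen, hy, h3, h9⟩ hm hG
  have e1 : Irr0 (P : Subgroup G) (PrincipalBlock O G) = Pool.Agent.Y62.GA.X0 O G :=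
    Set.ext fun χ => (Pool.Agent.Y62.GA.mem_X0_iff' hO P.not_dvd_index).symm
  have e2 : Irr0 ((P : Subgroup G).subgroupOf (Subgroup.normalizer ((P : Subgroup G) : Set G)))
      (PrincipalBlock O (Subgroup.normalizer ((P : Subgroup G) : Set G))) =
      Pool.Agent.Y62.GA.X0 O (Subgroup.normalizer ((P : Subgroup G) : Set G)) :=
    Set.ext fun χ => (Pool.Agent.Y62.GA.mem_X0_iff' hO
      (Pool.Agent.Y62.GA.sub_index P)).symm
  rw [e1, e2]
  exact ⟨f, hf⟩

end Pool.Agent.Results.MP_7f1e7e_al.PrincipalThreeBlocks
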