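import Pool.Agent.Y360.AN.Fin2

/-!
# The Alperin–McKay–Navarro conjecture and numbers of solutions of surface equations

For a finite group `H`, exponents `τ_1, …, τ_r` prime to `|H|` and `x_1, …, x_m ∈ H` the numbers of
solutions in `H` of `∏ a_i b_i a_i^(-τ_i) b_i⁻¹ · [a'_1,b'_1] ⋯ [a'_n,b'_n] · ∏ c_{i s} = 1` with
`c_{i s}` conjugate to `x_i` for `1 ≤ s ≤ ρ` determine, for every prime `p`, integers `f d n`
(the twisted coloured slopes).

Let `D` be a `p`-subgroup of the finite group `G` of order `p^d` and `O` a valuation ring of `ℂ`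
with `p` in its maximal ideal. The irreducible characters of `G` of height zero in blocks with
defect group `D` are those for which `p^d` divides `|G|/χ(1)` and the central character of `χ`
does not vanish modulo the maximal ideal of `O` at some class with defect group `D`, that is, at
the class of some `y ∈ C_G(D)` with `|C_G(y)|_p = |D|` (min-max theorem of Brauer). The same holds
for `N_G(D)` and the same elements `y`, and blocks `B` of `G` and `b` of `N_G(D)` with defect group
`D` are Brauer correspondents if and only if their central characters agree at these `y` (first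
main theorem). So the fibres `Fib` are the sets `Irr_0(B)` and `Irr_0(b)`, and
`AlperinMcKayNavarro p O G D` is the Alperin–McKay–Navarro conjecture for all blocks of `G` with
defect group `D`.

The theorem says that it holds if and only if, for all pairs (`p` odd) or triples (`p = 2`) of
exponents which are congruent to powers of `p` modulo `|G|_{p'}` and all `y_0, …, y_m` as above,
the slopes `f k d 0` of `G` and `g k d 0` of `N_G(D)` with `ρ = p^k` satisfy
`f k d 0 - g k d 0 → 0` in the `p`-adic integers as `k → ∞`.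
-/

namespace Pool.Agent.Results.MP_7f1e7e_al.TwistedColouredCounts

open Pool.Agent.Y360.MC Pool.Agent.Y360.AM Pool.Agent.Y360.AN

theorem result :
    (∀ (p : ℕ) [Fact p.Prime] (H : Type) [Group H] [Finite H] (r m : ℕ) (τ : Fin r → ℕ)
      (x : Fin m → H) (ρ : ℕ), (∀ i, Nat.Coprime (τ i) (Nat.card H)) →
      ∃ f : ℕ → ℕ → ℤ, IsTCSlopes p τ x ρ f ∧
        ∀ f' : ℕ → ℕ → ℤ, IsTCSlopes p τ x ρ f' → f' = f) ∧
    (∀ (p : ℕ) [Fact p.Prime] (O : ValuationSubring ℂ), (p : ℂ) ∈ O.nonunits →
      ∀ (G : Type) [Group G] [Finite G] (D : Subgroup G) (r : ℕ),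
      (3 ≤ r ∨ (p ≠ 2 ∧ 2 ≤ r)) →
      (AlperinMcKayNavarro p O G D ↔ ∀ τ : Fin r → ℕ, (∀ i, InT p (Nat.card G) (τ i)) →
        ∀ (m : ℕ) (y : Fin (m + 1) → Cl p D) (f g : ℕ → ℕ → ℕ → ℤ),
        (∀ k, IsTCSlopes p τ (fun j => (y j).1) (p ^ k) (f k)) →
        (∀ k, IsTCSlopes p τ (fun j => inN (y j)) (p ^ k) (g k)) →
        ∀ c : ℕ, ∃ k₀ : ℕ, ∀ k ≥ k₀, (p : ℤ) ^ c ∣
          f k ((Nat.card D).factorization p) 0 - g k ((Nat.card D).factorization p) 0)) := by
  refine ⟨?_, ?_⟩
  · intro p _ H _ _ r m τ x ρ hτ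
    letI : Fintype H := Fintype.ofFinite H
    exact tcslopes_exist τ hτ x ρ
  · intro p _ O hO G _ _ D r hr
    exact amn_iff hO D r hr

end Pool.Agent.Results.MP_7f1e7e_al.TwistedColouredCounts
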